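import Pool.Agent.AT8.Stmts1
import Pool.Agent.Helper86_AT3.CEN
import Pool.Agent.Helper97_K9.NZA
import Pool.Agent.Helper15_WRA.Vpow
import Pool.Agent.Helper25_K9.PRG
import Pool.Agent.Helper25_KF.Idm
import Pool.Agent.Helper9_PP.Pbk
import Pool.Agent.Helper50_PP.Ffa

/-!
# Squad AT8, row KNZ: the characters of `γ` modulo `M`
-/

set_option autoImplicit false

open scoped BigOperators

set_option linter.unusedSectionVars false

noncomputable section

namespace Pool.Agent.PP.T8.H87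

open Pool.Agent.Helper51_AWC Pool.Agent.Helper79_WRA Pool.Agent.PP Pool.Agent.PP.KF
open Pool.Agent.PP.K9 Pool.Agent.PP.K9.H97 Pool.Agent.PP.H75 Pool.Agent.PP.T3 Pool.Agent.PP.T2

attribute [local instance] Ideal.Quotient.field

/-- the multiplicity of the trivial character of a subgroup is a natural number -/
theorem mult_one {B : Type} [Group B] [Finite B] (P : Subgroup B) {χ : B → ℂ} (hχ : χ ∈ Irr B) :
    ∃ m : ℕ, (Nat.card P : ℂ)⁻¹ * ∑ᶠ x : P, χ x = m := by
  obtain ⟨n, ρ, _, hρ⟩ := hχ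
  have hFV : Fintype P := Fintype.ofFinite P
  have hV0 : (Nat.card P : ℂ) ≠ 0 := Nat.cast_ne_zero.2 Nat.card_pos.ne'
  let q0 : Module.End ℂ (Fin n → ℂ) := ∑ v : P, ρ v
  have hq : q0 * q0 = (Nat.card P : ℂ) • q0 := by
    have h1 : q0 * q0 = ∑ v : P, ∑ w : P, ρ ((v * w : P) : B) := by
      simp only [q0, Finset.sum_mul, Finset.mul_sum]
      rw [Finset.sum_comm]
      refine Finset.sum_congr rfl fun v _ => Finset.sum_congr rfl fun w _ => ?_
      rw [Subgroup.coe_mul, map_mul]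
    have h2 : ∀ v : P, ∑ w : P, ρ ((v * w : P) : B) = q0 := by
      intro v
      exact Equiv.sum_comp (Equiv.mulLeft v) (fun x : P => ρ (x : B))
    rw [h1, Finset.sum_congr rfl fun v _ => h2 v, Finset.sum_const, Finset.card_univ,
      ← Nat.card_eq_fintype_card, ← Nat.cast_smul_eq_nsmul ℂ]
  have hid : ((Nat.card P : ℂ)⁻¹ • q0) * ((Nat.card P : ℂ)⁻¹ • q0) =
      (Nat.card P : ℂ)⁻¹ • q0 := by
    rw [smul_mul_smul_comm, hq, smul_smul, mul_assoc, inv_mul_cancel₀ hV0, mul_one]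
  have htr : ∃ m : ℕ, LinearMap.trace ℂ (Fin n → ℂ) ((Nat.card P : ℂ)⁻¹ • q0) = m :=
    ⟨_, LinearMap.IsProj.trace (LinearMap.IsIdempotentElem.isProj_range _ hid)⟩
  obtain ⟨m, hm⟩ := htr
  refine ⟨m, ?_⟩
  rw [← hm, map_smul, smul_eq_mul]
  congr 1
  rw [finsum_eq_sum_of_fintype]
  simp only [q0, map_sum]
  refine Finset.sum_congr rfl fun v _ => ?_
  rw [← hρ]
  rfl

/-- the residue of a character value depends only on the regular part -/
theorem rr_reg {ℓ : ℕ} [hℓ : Fact ℓ.Prime] (M : Ideal (integralClosure ℤ ℂ)) [M.IsMaximal]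
    (hM : (ℓ : integralClosure ℤ ℂ) ∈ M) {H : Type} [Group H] [Finite H] {κ : H → ℂ}
    (hκ : κ ∈ Irr H) (g s : H) (n : ℕ) (h : g ^ ℓ ^ n = s ^ ℓ ^ n) :
    rr M (κ g) = rr M (κ s) := by
  have hF : GoodF ℓ (FF M) := H50.fld ℓ hℓ.out M hM
  have hch : CharP (FF M) ℓ := hF.char
  have hexp : ExpChar (FF M) ℓ := ExpChar.prime hℓ.out
  have h1 : ∀ t : H, rr M (κ (t ^ ℓ ^ n)) = rr M (κ t) ^ ℓ ^ n := by
    intro t
    rw [rr_of_int (irr_integral hκ _), rr_of_int (irr_integral hκ _)]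
    exact H15.vpow ℓ M hM H κ hκ t n
  have h2 : rr M (κ g) ^ ℓ ^ n = rr M (κ s) ^ ℓ ^ n := by rw [← h1, ← h1, h]
  exact iterateFrobenius_inj (FF M) ℓ n h2

theorem knz_cen (rg1 : Rg1Stmt) (cens : T3.CenStmt) (psg : T3.PsgStmt) (ℓ : ℕ) [hℓ : Fact ℓ.Prime]
    (M : Ideal (integralClosure ℤ ℂ)) [M.IsMaximal] (hM : (ℓ : integralClosure ℤ ℂ) ∈ M)
    (H : Type) [Group H] [Finite H] (b : H → FF M) (hb : IsBlk b) (V : Subgroup H)
    (hV : Tp ℓ b V) (hVc : V ≤ Subgroup.center H) (c : ℕ) (hc : Dg M b c) :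
    ((Nat.card V * c : ℂ) / Nat.card H) ∈ RM M ∧
    ∀ κ ∈ IrrE M b, (∃ s, rr M (κ s) ≠ 0) ∧ ∀ κ' ∈ IrrE M b, ∀ g, rr M (κ' g) = rr M (κ g) := by
  have hF : GoodF ℓ (FF M) := H50.fld ℓ hℓ.out M hM
  have hFH : Fintype H := Fintype.ofFinite H
  have hn : V.Normal := ⟨fun n hn g => by
    have h1 := Subgroup.mem_center_iff.1 (hVc hn) g
    rw [h1, mul_assoc, mul_inv_cancel, mul_one]
    exact hn⟩
  obtain ⟨p, hpd⟩ : ∃ p : H →* H ⧸ V, p = QuotientGroup.mk' V := ⟨_, rfl⟩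
  have hker : p.ker = V := by rw [hpd, QuotientGroup.ker_mk']
  have hp : Function.Surjective p := by rw [hpd]; exact QuotientGroup.mk'_surjective V
  have hkp : IsPGroup ℓ p.ker := by rw [hker]; exact hV.pg
  have hkc : p.ker ≤ Subgroup.center H := by rw [hker]; exact hVc
  have hb' : IsBlk (H75.push p b) := psg ℓ (FF M) hF H (H ⧸ V) p hp hkc hkp b hb
  have wbo : WboStmt := H82W.wbo (H82.trb H53.tra)
  have hgood : ∀ Q : Subgroup (H ⧸ V), IsPGroup ℓ Q → Gd (H75.push p b) Q → Q = ⊥ := by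
    intro Q hQ hQb
    have h1 : Q = (Q.comap p).map p := (Subgroup.map_comap_eq_self_of_surjective hp Q).symm
    have hcard : Nat.card (Q.comap p) = Nat.card V * Nat.card Q := by
      have := H75.card_comap (p := p) hp Q
      rw [this, hker]
    have h2 : IsPGroup ℓ (Q.comap p) := by
      obtain ⟨n, hn⟩ := (IsPGroup.iff_card).1 hQ
      obtain ⟨m, hm⟩ := (IsPGroup.iff_card).1 hV.pg
      exact IsPGroup.of_card (n := m + n) (by rw [hcard, hn, hm, pow_add])
    have h3 : p.ker ≤ Q.comap p := by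
      intro x hx
      rw [Subgroup.mem_comap, MonoidHom.mem_ker.1 hx]
      exact Q.one_mem
    rw [h1] at hQb
    have h4 := (H02.pug ℓ (FF M) hF H (H ⧸ V) p hp hkp b hb.1 _ h3 h2).2 hQb
    have h6 := hV.mx _ h2 h4
    rw [hcard] at h6
    have h7 : 0 < Nat.card V := Nat.card_pos
    have h8 : 0 < Nat.card Q := Nat.card_pos
    have h9 : Nat.card Q = 1 := by
      have : Nat.card V * Nat.card Q ≤ Nat.card V * 1 := by rw [mul_one]; exact h6
      have := Nat.le_of_mul_le_mul_left this h7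
      omega
    exact Subgroup.card_eq_one.1 h9
  obtain ⟨κ₀, hκ₀, hrc⟩ := H1.dzo wbo ℓ M hM (H ⧸ V) (H75.push p b) hb' hgood
  obtain ⟨hpsi1, hpsi2⟩ := H3.psi M H (H ⧸ V) p hp b hb.1.1
  rw [hκ₀] at hpsi1
  have hκ₀B : κ₀ ∈ Irr (H ⧸ V) ∧ (fun a => κ₀ (p a)) ∈ IrrE M b := by
    have : κ₀ ∈ ({κ₀} : Set (H ⧸ V → ℂ)) := rfl
    rw [hpsi1] at this
    exact this
  have hκ1 : κ₀ 1 = c := by
    have h1 := hc.2 _ hκ₀B.2
    simpa using h1
  -- the degree
  have hcardV : (Nat.card H : ℂ) = Nat.card V * Nat.card (H ⧸ V) := by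
    have h1 := Subgroup.card_eq_card_quotient_mul_card_subgroup V
    rw [h1]
    push_cast
    ring
  have hV0 : (Nat.card V : ℂ) ≠ 0 := Nat.cast_ne_zero.2 Nat.card_pos.ne'
  have hB0 : (Nat.card (H ⧸ V) : ℂ) ≠ 0 := Nat.cast_ne_zero.2 Nat.card_pos.ne'
  have hq : ((Nat.card V * c : ℂ) / Nat.card H) ∈ RM M := by
    obtain ⟨P, hP⟩ : ∃ P : Sylow ℓ (H ⧸ V), P = default := ⟨_, rfl⟩
    obtain ⟨m, hm⟩ := mult_one (P : Subgroup (H ⧸ V)) hκ₀B.1
    have hFP : Fintype (P : Subgroup (H ⧸ V)) := Fintype.ofFinite _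
    have hsum : ∑ᶠ x : (P : Subgroup (H ⧸ V)), κ₀ x = c := by
      rw [finsum_eq_sum_of_fintype, Finset.sum_eq_single (1 : (P : Subgroup (H ⧸ V)))]
      · rw [Subgroup.coe_one]
        exact hκ1
      · intro x _ hx
        apply hrc.sg
        intro hreg
        apply hx
        obtain ⟨k, hk⟩ := P.isPGroup' x
        have h1 : orderOf (x : H ⧸ V) ∣ ℓ ^ k := by
          apply orderOf_dvd_of_pow_eq_one
          have := congrArg Subtype.val hk
          simpa using this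
        have h2 : (orderOf (x : H ⧸ V)).Coprime (ℓ ^ k) := Nat.Coprime.pow_right k hreg
        have h3 : orderOf (x : H ⧸ V) = 1 := Nat.eq_one_of_dvd_coprimes h2 dvd_rfl h1
        exact Subtype.ext (orderOf_eq_one_iff.1 h3)
      · intro h
        exact absurd (Finset.mem_univ _) h
    rw [hsum] at hm
    have hP0 : (Nat.card (P : Subgroup (H ⧸ V)) : ℂ) ≠ 0 := Nat.cast_ne_zero.2 Nat.card_pos.ne'
    have hidx : ¬ ℓ ∣ (P : Subgroup (H ⧸ V)).index := P.not_dvd_index
    have hcardP : (Nat.card (H ⧸ V) : ℂ) =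
        Nat.card (P : Subgroup (H ⧸ V)) * (P : Subgroup (H ⧸ V)).index := by
      have := Subgroup.card_mul_index (P : Subgroup (H ⧸ V))
      exact_mod_cast this.symm
    have hi0 : (((P : Subgroup (H ⧸ V)).index : ℕ) : ℂ) ≠ 0 := by
      intro h
      apply hB0
      rw [hcardP, h, mul_zero]
    have h1 : (Nat.card V * c : ℂ) / Nat.card H =
        (m : ℂ) * (((P : Subgroup (H ⧸ V)).index : ℕ) : ℂ)⁻¹ := by
      rw [← hm, hcardV, hcardP]
      field_simp
    rw [h1]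
    exact (RM M).mul_mem (rr_nat m).1 (inv_nat_RM hℓ.out hM hidx)
  refine ⟨hq, ?_⟩
  -- the values at the regular elements
  have htop : Subgroup.centralizer (V : Set H) = ⊤ := by
    rw [eq_top_iff]
    intro g _
    rw [Subgroup.mem_centralizer_iff]
    intro v hv
    exact (Subgroup.mem_center_iff.1 (hVc hv) g).symm
  have hbrb : br V b = b := funext fun x => H66.br_of_mem (by
    rw [htop]
    exact Subgroup.mem_top x)
  have hL : Ld ℓ b V b := by
    refine ⟨hb, hV, ?_, ⟨?_, ?_⟩, ?_⟩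
    · intro a ha b hb
      exact (Subgroup.mem_center_iff.1 (hVc ha) b).symm
    · intro x hx
      rw [htop] at hx
      exact absurd (Subgroup.mem_top x) hx
    · have h1 : ∀ C : Subgroup H, C = ⊤ → IsBlk (fun t : C => b t) := by
        rintro _ rfl
        exact H9.blk_tr Subgroup.topEquiv hb
      exact h1 _ htop
    · rw [hbrb]
      exact hb.1.2
  have hix : ix V b = 1 := by
    unfold ix
    rw [htop]
    exact Subgroup.relIndex_top_left _
  have hreg : ∀ κ ∈ IrrE M b, ∀ κ' ∈ IrrE M b, ∀ s : H, Reg ℓ s → κ s = κ' s :=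
    rg1 ℓ M hM H b V b hL hix
  have hcard : (IrrE M b).ncard = Nat.card V := (cens ℓ M hM H b hb V hV hVc).2
  intro κ hκ
  constructor
  · -- a value which is not zero
    obtain ⟨s, hs⟩ := Function.ne_iff.1 hb.2.1
    obtain ⟨hid1, -, -⟩ := H25.idm M H b hb.1
    have hsr : Reg ℓ s := by
      by_contra h
      apply hs
      rw [← (hid1 s).2, H25.eh_sing wbo ℓ M hM b hb.1 s h, rr_zero]
      rfl
    refine ⟨s⁻¹, fun h0 => hs ?_⟩
    have hsi : Reg ℓ s⁻¹ := by
      unfold Reg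
      rw [orderOf_inv]
      exact hsr
    have h1 : eh M b s = ((Nat.card V * c : ℂ) / Nat.card H) * κ s⁻¹ := by
      rw [K9.H25.eh_eq]
      have h2 : ∀ χ ∈ (K9.H25.irrE_finite M b).toFinset, χ 1 * χ s⁻¹ = (c : ℂ) * κ s⁻¹ := by
        intro χ hχ
        rw [Set.Finite.mem_toFinset] at hχ
        rw [hc.2 χ hχ, hreg χ hχ κ hκ _ hsi]
      rw [Finset.sum_congr rfl h2, Finset.sum_const, ← Set.ncard_eq_toFinset_card _
        (K9.H25.irrE_finite M b), hcard, nsmul_eq_mul, ← Nat.card_eq_fintype_card]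
      ring
    rw [← (hid1 s).2, h1, rr_mul hq (RM_of_int (irr_integral hκ.1 _)), h0, mul_zero]
    rfl
  · intro κ' hκ' g
    obtain ⟨N, hN0, -⟩ := H27.prt ℓ H
    obtain ⟨hs, n, hn⟩ := hN0 g
    have hcomm : Commute ((g ^ N)⁻¹) g := ((Commute.refl g).pow_left N).inv_left
    have h1 : g ^ ℓ ^ n = (g ^ N) ^ ℓ ^ n := by
      rw [hcomm.mul_pow, inv_pow] at hn
      exact (inv_mul_eq_one.1 hn).symm
    rw [rr_reg M hM hκ'.1 g (g ^ N) n h1, rr_reg M hM hκ.1 g (g ^ N) n h1,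
      hreg κ' hκ' κ hκ _ hs]

theorem knz (rg1 : Rg1Stmt) (cens : T3.CenStmt) (psg : T3.PsgStmt) : KnzStmt := by
  intro ℓ hℓ M _ hM G _ _ e V γ hL c hc
  have hF : GoodF ℓ (FF M) := H50.fld ℓ Fact.out M hM
  obtain ⟨C, hC⟩ : ∃ C : Subgroup G, C = Subgroup.centralizer (V : Set G) := ⟨_, rfl⟩
  have hVC : V ≤ C := by
    intro v hv
    rw [hC, Subgroup.mem_centralizer_iff]
    intro w hw
    exact hL.ab w hw v hv
  have hbx : Bx C γ := by rw [hC]; exact hL.gam
  have hVz : V.subgroupOf C ≤ Subgroup.center C := by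
    intro v hv
    rw [Subgroup.mem_center_iff]
    intro g
    have h1 : (g : G) ∈ Subgroup.centralizer (V : Set G) := by rw [← hC]; exact g.2
    exact Subtype.ext (Subgroup.mem_centralizer_iff.1 h1 v hv).symm
  have hVcard : Nat.card (V.subgroupOf C) = Nat.card V :=
    Nat.card_congr (Subgroup.subgroupOfEquivOfLe hVC).toEquiv
  have hbrcl : IsCl (fun t : C => br V e t) := by
    intro x y
    have h1 : ∀ t : C, br V e t = e t := fun t =>
      H66.br_of_mem (by rw [← hC]; exact t.2)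
    have h2 := h1 (y * x * y⁻¹)
    have h3 := h1 x
    change br V e ((y * x * y⁻¹ : C) : G) = br V e (x : G)
    rw [h2, h3]
    exact hL.blk.1.1 _ _
  have hmul : mulF (fun t : C => br V e t) (fun t : C => γ t) = fun t : C => γ t := by
    have hs : ∀ x, x ∉ C → br V e x = 0 := fun x hx => H66.br_of_not_mem (by rw [← hC]; exact hx)
    rw [← mulF_res C γ hs, hL.und]
  have hT : Tp ℓ (fun t : C => γ t) (V.subgroupOf C) := by
    refine ⟨hL.tp.pg.of_equiv (Subgroup.subgroupOfEquivOfLe hVC).symm, ?_, ?_⟩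
    · have hne : (fun t : C => γ t) ≠ 0 := hbx.blk.2.1
      obtain ⟨t, ht⟩ := Function.ne_iff.1 hne
      refine ⟨t, ?_, ht⟩
      rw [Subgroup.mem_centralizer_iff]
      intro v hv
      exact (Subgroup.mem_center_iff.1 (hVz hv) t).symm
    · intro Q hQ hQg
      have h1 := gd_of_mul hF hbrcl hbx.blk.1.1 hmul hQ hQg
      have h2 : Gd (fun t : C => e t) Q := by
        obtain ⟨g, hg1, hg2⟩ := h1
        refine ⟨g, hg1, ?_⟩
        change br V e (g : G) ≠ 0 at hg2
        rw [H66.br_of_mem (by rw [← hC]; exact g.2)] at hg2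
        exact hg2
      have hcard : Nat.card (Q.map C.subtype) = Nat.card Q :=
        (Nat.card_congr (Q.equivMapOfInjective C.subtype C.subtype_injective).toEquiv).symm
      have h3 := hL.tp.mx _ (hQ.map C.subtype) (gd_map h2)
      rw [hcard] at h3
      rw [hVcard]
      exact h3
  subst hC
  have h1 := knz_cen rg1 cens psg ℓ M hM _ _ hbx.blk _ hT hVz c hc
  rw [hVcard] at h1
  exact h1

end Pool.Agent.PP.T8.H87
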